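import Pool.Agent.helper24.SK.Spec

set_option autoImplicit false

namespace Pool.Agent.SK

open Finset ArithmeticFunction MeasureTheory
open Pool.Agent.CH (nit DPb Win Tset ph)
open Pool.Agent.EC (tri vN fN XN TL AdT)
open Pool.Agent.helper85.BVP (tau)
open GD (ks)

theorem TI_ev (c : ℝ) (k : ℕ) :
    ∀ᶠ N : ℕ in Filter.atTop, c * Real.log N ^ k ≤ (N : ℝ) ^ (1 / 100 : ℝ) := by
  have h := (isLittleO_log_rpow_rpow_atTop (k : ℝ) (by norm_num : (0 : ℝ) < 1 / 100)).bound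
    (show (0 : ℝ) < 1 / (|c| + 1) by positivity)
  have h2 := (tendsto_natCast_atTop_atTop (R := ℝ)).eventually h
  filter_upwards [h2] with N hN
  rw [Real.rpow_natCast, Real.norm_eq_abs, Real.norm_eq_abs] at hN
  have hL : 0 ≤ Real.log N := Real.log_natCast_nonneg N
  rw [abs_of_nonneg (pow_nonneg hL k), abs_of_nonneg (Real.rpow_nonneg (Nat.cast_nonneg N) (1 / 100 : ℝ))] at hN
  have h3 : 0 < |c| + 1 := by positivity
  rw [one_div, inv_mul_eq_div, le_div_iff₀ h3] at hN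
  calc c * Real.log N ^ k ≤ (|c| + 1) * Real.log N ^ k :=
        mul_le_mul_of_nonneg_right (by linarith [le_abs_self c]) (pow_nonneg hL k)
    _ = Real.log N ^ k * (|c| + 1) := mul_comm _ _
    _ ≤ _ := hN

theorem TI_evlog (T : ℝ) : ∀ᶠ N : ℕ in Filter.atTop, T ≤ Real.log N :=
  (Real.tendsto_log_atTop.comp (tendsto_natCast_atTop_atTop (R := ℝ))).eventually_ge_atTop T

theorem TI_swap (f : ℕ → ℕ → ℂ) (M : ℕ) :
    ∑ m ∈ Ioc 0 M, ∑ x ∈ m.divisorsAntidiagonal, f x.1 x.2 =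
      ∑ d ∈ Ioc 0 M, ∑ n ∈ Ioc 0 (M / d), f d n := by
  rw [Finset.sum_sigma', Finset.sum_sigma']
  refine Finset.sum_bij' (fun x _ => ⟨x.2.1, x.2.2⟩) (fun y _ => ⟨y.1 * y.2, (y.1, y.2)⟩) ?_ ?_ ?_ ?_ ?_
  · rintro ⟨m, d, n⟩ h
    simp only [mem_sigma, mem_Ioc, Nat.mem_divisorsAntidiagonal] at h ⊢
    obtain ⟨⟨hm0, hmM⟩, hdn, hm⟩ := h
    have hd : 0 < d := by
      rcases Nat.eq_zero_or_pos d with h0 | h0
      · rw [h0, zero_mul] at hdn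
        omega
      · exact h0
    have hn : 0 < n := by
      rcases Nat.eq_zero_or_pos n with h0 | h0
      · rw [h0, mul_zero] at hdn
        omega
      · exact h0
    refine ⟨⟨hd, ?_⟩, hn, ?_⟩
    · exact (Nat.le_mul_of_pos_right d hn).trans (hdn.le.trans hmM)
    · rw [Nat.le_div_iff_mul_le hd, mul_comm]
      exact hdn.le.trans hmM
  · rintro ⟨d, n⟩ h
    simp only [mem_sigma, mem_Ioc, Nat.mem_divisorsAntidiagonal] at h ⊢
    obtain ⟨⟨hd0, hdM⟩, hn0, hn⟩ := h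
    rw [Nat.le_div_iff_mul_le hd0] at hn
    refine ⟨⟨Nat.mul_pos hd0 hn0, by rw [mul_comm]; exact hn⟩, trivial, ?_⟩
    exact (Nat.mul_pos hd0 hn0).ne'
  · rintro ⟨m, d, n⟩ h
    simp only [mem_sigma, mem_Ioc, Nat.mem_divisorsAntidiagonal] at h
    obtain ⟨-, hdn, -⟩ := h
    subst hdn
    rfl
  · rintro ⟨d, n⟩ _
    rfl
  · rintro ⟨m, d, n⟩ _
    rfl

/-- the inner sums -/
noncomputable def TI_S (B N : ℕ) (v : ℝ) {q : ℕ} (χ : DirichletCharacter ℂ q) (h Y d : ℕ) : ℂ :=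
  ∑ n ∈ Ioc Y (64 * N ^ 3 / d), χ n * (Real.log n : ℂ) ^ h * gj B N v (d * n)

theorem TI_eq (B N : ℕ) (v : ℝ) {q : ℕ} (χ : DirichletCharacter ℂ q) (h Y : ℕ) (E : ArithmeticFunction ℝ) :
    ∑ m ∈ Ioc 0 (64 * N ^ 3), (((E * bgf Y h) m : ℝ) : ℂ) * χ m * gj B N v m =
      ∑ d ∈ Ioc 0 (64 * N ^ 3), ((E d : ℝ) : ℂ) * χ d * TI_S B N v χ h Y d := by
  obtain ⟨F, hF⟩ : ∃ F : ℕ → ℕ → ℂ, F = fun d n : ℕ => ((E d : ℝ) : ℂ) * ((bgf Y h n : ℝ) : ℂ) *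
        χ ((d * n : ℕ) : ZMod q) * gj B N v (d * n) := ⟨_, rfl⟩
  have h1 : ∀ m ∈ Ioc 0 (64 * N ^ 3), (((E * bgf Y h) m : ℝ) : ℂ) * χ m * gj B N v m =
      ∑ x ∈ m.divisorsAntidiagonal, F x.1 x.2 := by
    intro m _
    rw [ArithmeticFunction.mul_apply, hF]
    push_cast
    rw [Finset.sum_mul, Finset.sum_mul]
    refine Finset.sum_congr rfl (fun x hx => ?_)
    rw [Nat.mem_divisorsAntidiagonal] at hx
    rw [hx.1.symm]
    push_cast
    rfl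
  rw [Finset.sum_congr rfl h1, TI_swap F, hF]
  refine Finset.sum_congr rfl (fun d _ => ?_)
  unfold TI_S
  rw [Finset.mul_sum]
  have hsub : Ioc Y (64 * N ^ 3 / d) ⊆ Ioc 0 (64 * N ^ 3 / d) := Finset.Ioc_subset_Ioc_left (Nat.zero_le _)
  rw [← Finset.sum_subset hsub]
  · refine Finset.sum_congr rfl (fun n hn => ?_)
    rw [mem_Ioc] at hn
    have hb : bgf Y h n = Real.log n ^ h := by
      unfold bgf
      simp [hn.1]
    show ((E d : ℝ) : ℂ) * ((bgf Y h n : ℝ) : ℂ) * χ ((d * n : ℕ) : ZMod q) * gj B N v (d * n) =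
      ((E d : ℝ) : ℂ) * χ d * (χ n * (Real.log n : ℂ) ^ h * gj B N v (d * n))
    rw [hb]
    push_cast
    rw [map_mul]
    ring
  · intro n hn hn'
    rw [mem_Ioc] at hn hn'
    have hb : bgf Y h n = 0 := by
      unfold bgf
      have : ¬ Y < n := fun hlt => hn' ⟨hlt, hn.2⟩
      simp [this]
    simp [hb]

theorem TI_lg {N x : ℕ} (hN : 1 ≤ N) (hL : 2 ≤ Real.log N) (hx : x ≤ 64 * N ^ 3) :
    0 ≤ 1 + Real.log x ∧ 1 + Real.log x ≤ 6 * Real.log N := by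
  have h0 : 0 ≤ Real.log x := Real.log_natCast_nonneg x
  refine ⟨by linarith, ?_⟩
  have h1 : Real.log x ≤ Real.log ((64 * N ^ 3 : ℕ) : ℝ) := Pool.Agent.helper85.BVP.log_nat_le hx
  have hN' : (0 : ℝ) < N := by exact_mod_cast hN
  have h2 : Real.log ((64 * N ^ 3 : ℕ) : ℝ) = 6 * Real.log 2 + 3 * Real.log N := by
    push_cast
    rw [Real.log_mul (by norm_num) (by positivity), Real.log_pow]
    have : (64 : ℝ) = 2 ^ 6 := by norm_num
    rw [this, Real.log_pow]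
    push_cast
    ring
  have h3 : Real.log 2 < 0.6931471808 := Real.log_two_lt_d9
  linarith

section
variable {N K : ℕ} {E : ArithmeticFunction ℝ}

theorem TI_m1 (h2 : TAM_stmt) (hN : 1 ≤ N) (hL : 2 ≤ Real.log N)
    (hE : ∀ d : ℕ, 1 ≤ d → d ≤ 64 * N ^ 3 → |E d| ≤ Real.log N ^ K * tau d ^ K) (X : ℕ) (hX : X ≤ 64 * N ^ 3) :
    ∑ d ∈ Ioc 0 X, |E d| ≤ Real.log N ^ K * (X * (6 * Real.log N) ^ (2 ^ K)) := by
  have h := (h2 K X).1
  have hlg := TI_lg hN hL hX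
  calc ∑ d ∈ Ioc 0 X, |E d| ≤ ∑ d ∈ Ioc 0 X, Real.log N ^ K * tau d ^ K := by
        refine Finset.sum_le_sum (fun d hd => ?_)
        rw [mem_Ioc] at hd
        exact hE d hd.1 (hd.2.trans hX)
    _ = Real.log N ^ K * ∑ d ∈ Ioc 0 X, tau d ^ K := by rw [Finset.mul_sum]
    _ ≤ Real.log N ^ K * (X * (6 * Real.log N) ^ (2 ^ K)) := by
        apply mul_le_mul_of_nonneg_left _ (by positivity)
        refine h.trans ?_
        apply mul_le_mul_of_nonneg_left _ (Nat.cast_nonneg X)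
        exact pow_le_pow_left₀ hlg.1 hlg.2 _

theorem TI_m2 (h2 : TAM_stmt) (hN : 1 ≤ N) (hL : 2 ≤ Real.log N)
    (hE : ∀ d : ℕ, 1 ≤ d → d ≤ 64 * N ^ 3 → |E d| ≤ Real.log N ^ K * tau d ^ K) (D : Finset ℕ)
    (hD : D ⊆ Ioc 0 (64 * N ^ 3)) :
    ∑ d ∈ D, |E d| / d ≤ Real.log N ^ K * (6 * Real.log N) ^ (2 ^ K) ∧
    ∑ d ∈ D, (E d) ^ 2 / d ≤ Real.log N ^ (2 * K) * (6 * Real.log N) ^ (2 ^ (2 * K)) := by
  have hlg := TI_lg hN hL (le_refl (64 * N ^ 3))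
  constructor
  · have h := (h2 K (64 * N ^ 3)).2
    calc ∑ d ∈ D, |E d| / d ≤ ∑ d ∈ Ioc 0 (64 * N ^ 3), |E d| / d :=
          Finset.sum_le_sum_of_subset_of_nonneg hD (fun d _ _ => by positivity)
      _ ≤ ∑ d ∈ Ioc 0 (64 * N ^ 3), Real.log N ^ K * (tau d ^ K / d) := by
          refine Finset.sum_le_sum (fun d hd => ?_)
          rw [mem_Ioc] at hd
          rw [← mul_div_assoc]
          exact div_le_div_of_nonneg_right (hE d hd.1 hd.2) (Nat.cast_nonneg d)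
      _ = Real.log N ^ K * ∑ d ∈ Ioc 0 (64 * N ^ 3), tau d ^ K / d := by rw [Finset.mul_sum]
      _ ≤ _ := by
          apply mul_le_mul_of_nonneg_left _ (by positivity)
          refine h.trans ?_
          exact pow_le_pow_left₀ hlg.1 hlg.2 _
  · have h := (h2 (2 * K) (64 * N ^ 3)).2
    calc ∑ d ∈ D, (E d) ^ 2 / d ≤ ∑ d ∈ Ioc 0 (64 * N ^ 3), (E d) ^ 2 / d :=
          Finset.sum_le_sum_of_subset_of_nonneg hD (fun d _ _ => by positivity)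
      _ ≤ ∑ d ∈ Ioc 0 (64 * N ^ 3), Real.log N ^ (2 * K) * (tau d ^ (2 * K) / d) := by
          refine Finset.sum_le_sum (fun d hd => ?_)
          rw [mem_Ioc] at hd
          rw [← mul_div_assoc]
          apply div_le_div_of_nonneg_right _ (Nat.cast_nonneg d)
          have h3 := pow_le_pow_left₀ (abs_nonneg (E d)) (hE d hd.1 hd.2) 2
          rw [sq_abs] at h3
          refine h3.trans (le_of_eq ?_)
          rw [mul_pow, ← pow_mul, ← pow_mul, mul_comm K 2]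
      _ = Real.log N ^ (2 * K) * ∑ d ∈ Ioc 0 (64 * N ^ 3), tau d ^ (2 * K) / d := by rw [Finset.mul_sum]
      _ ≤ _ := by
          apply mul_le_mul_of_nonneg_left _ (by positivity)
          refine h.trans ?_
          exact pow_le_pow_left₀ hlg.1 hlg.2 _

end

/-- the last sum over `d`: few `d` in a short multiplicative interval -/
theorem TI_short (D : Finset ℕ) (a b : ℝ) (ha : 0 < a) (hab : a ≤ b) (hD : ∀ d ∈ D, a < (d : ℝ) ∧ (d : ℝ) < b) :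
    ∑ d ∈ D, 1 / (d : ℝ) ≤ b / a - 1 + 1 / a := by
  have hsub : D ⊆ Ioc ⌊a⌋₊ ⌊b⌋₊ := by
    intro d hd
    obtain ⟨h1, h2⟩ := hD d hd
    rw [mem_Ioc]
    exact ⟨(Nat.floor_lt ha.le).2 h1, Nat.le_floor h2.le⟩
  have hcard : (D.card : ℝ) ≤ b - a + 1 := by
    have h1 : D.card ≤ ⌊b⌋₊ - ⌊a⌋₊ := by
      have := Finset.card_le_card hsub
      rwa [Nat.card_Ioc] at this
    have h2 : ⌊a⌋₊ ≤ ⌊b⌋₊ := Nat.floor_le_floor hab
    have h3 : (D.card : ℝ) ≤ (⌊b⌋₊ : ℝ) - (⌊a⌋₊ : ℝ) := by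
      rw [← Nat.cast_sub h2]
      exact_mod_cast h1
    have h4 : (⌊b⌋₊ : ℝ) ≤ b := Nat.floor_le (ha.le.trans hab)
    have h5 : a < (⌊a⌋₊ : ℝ) + 1 := Nat.lt_floor_add_one a
    linarith
  calc ∑ d ∈ D, 1 / (d : ℝ) ≤ ∑ _d ∈ D, 1 / a := by
        refine Finset.sum_le_sum (fun d hd => ?_)
        exact one_div_le_one_div_of_le ha (hD d hd).1.le
    _ = D.card * (1 / a) := by rw [Finset.sum_const, nsmul_eq_mul]
    _ ≤ (b - a + 1) * (1 / a) := mul_le_mul_of_nonneg_right hcard (by positivity)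
    _ = b / a - 1 + 1 / a := by field_simp

theorem TI_g0 (B N : ℕ) (v x : ℝ) (hL : 0 < Real.log N ^ B) (hLN : Real.log N ^ B ≤ N)
    (hx : v + 1 / Real.log N ^ B ≤ x) : g0 B N v x = 0 := by
  have hN : (0 : ℝ) < N := lt_of_lt_of_le hL hLN
  have h1 : 0 ≤ x - v := by
    have : 0 < 1 / Real.log N ^ B := by positivity
    linarith
  unfold g0 tr0
  have e1 : max 0 (1 - |x - v| / (1 / (N : ℝ))) = 0 := by
    apply max_eq_left
    rw [sub_nonpos, abs_of_nonneg h1, le_div_iff₀ (by positivity)]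
    have : 1 / (N : ℝ) ≤ 1 / Real.log N ^ B := one_div_le_one_div_of_le hL hLN
    linarith
  have e2 : max 0 (1 - |x - v| / (1 / Real.log N ^ B)) = 0 := by
    apply max_eq_left
    rw [sub_nonpos, abs_of_nonneg h1, le_div_iff₀ (by positivity)]
    linarith
  rw [e1, e2]
  ring

theorem TI (h1 : TI1_stmt) (h2 : TAM_stmt) : TI_stmt := by
  obtain ⟨C, hC, h1⟩ := h1
  intro A Bq K
  obtain ⟨a₁, ha₁⟩ : ∃ a, a = 2 ^ K := ⟨_, rfl⟩
  obtain ⟨a₂, ha₂⟩ : ∃ a, a = 2 ^ (2 * K) := ⟨_, rfl⟩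
  obtain ⟨s, hs⟩ : ∃ s, s = 2 + 2 * K + a₂ + A := ⟨_, rfl⟩
  refine ⟨4 + s + A + K + a₁, fun B hB => ?_⟩
  obtain ⟨N₁, hN₁⟩ := h1 B
  have hev : ∀ᶠ N : ℕ in Filter.atTop, N₁ ≤ N ∧ 1 ≤ N ∧ 2 ≤ Real.log N ∧ 4 * C * 6 ^ a₁ ≤ Real.log N ∧
      4 * C * 6 ^ a₂ ≤ Real.log N ∧ 20 * C ≤ Real.log N ∧ 100 * Real.log N ^ B ≤ (N : ℝ) ^ (1 / 100 : ℝ) ∧
      4 * C * 6 ^ (1 + a₁) * Real.log N ^ (1 + Bq + K + a₁ + A) ≤ (N : ℝ) ^ (1 / 100 : ℝ) := by
    filter_upwards [Filter.eventually_ge_atTop N₁, Filter.eventually_ge_atTop 1, TI_evlog 2,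
      TI_evlog (4 * C * 6 ^ a₁), TI_evlog (4 * C * 6 ^ a₂), TI_evlog (20 * C), TI_ev 100 B,
      TI_ev (4 * C * 6 ^ (1 + a₁)) (1 + Bq + K + a₁ + A)] with N a1 a2 a3 a4 a5 a6 a7 a8
    exact ⟨a1, a2, a3, a4, a5, a6, a7, a8⟩
  obtain ⟨N₀, hN₀⟩ := Filter.eventually_atTop.1 hev
  refine ⟨N₀, fun N hN v hv q hq hqL χ h hh E hE => ?_⟩
  obtain ⟨hNN₁, hN1, hL2, hc1, hc2, hc3, hPB, hPq⟩ := hN₀ N hN
  set L : ℝ := Real.log N with hL
  set P : ℝ := (N : ℝ) ^ (1 / 100 : ℝ) with hP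
  have hL0 : 0 < L := by linarith
  have hL1 : 1 ≤ L := by linarith
  have hNr : (1 : ℝ) ≤ N := by exact_mod_cast hN1
  have hN0 : (0 : ℝ) < N := by linarith
  have hLB1 : 1 ≤ L ^ B := one_le_pow₀ hL1
  have hLB0 : 0 < L ^ B := by linarith
  have hP100 : 100 ≤ P := by linarith
  have hP0 : 0 < P := by linarith
  have hPN : P ^ 2 ≤ N := by
    have e : P ^ 100 = N := by
      rw [hP, ← Real.rpow_natCast, ← Real.rpow_mul hN0.le]
      norm_num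
    calc P ^ 2 ≤ P ^ 100 := pow_le_pow_right₀ (by linarith) (by norm_num)
      _ = N := e
  have hLBN : L ^ B ≤ N := by nlinarith
  have hLB2 : 2 ≤ L ^ B := by
    have : L ^ 1 ≤ L ^ B := pow_le_pow_right₀ hL1 (by omega)
    rw [pow_one] at this
    linarith
  -- the cut Y
  obtain ⟨Y, hY⟩ : ∃ Y, Y = YN N := ⟨_, rfl⟩
  rw [← hY]
  have hYP : (N : ℝ) ^ (101 / 100 : ℝ) = N * P := by
    have e : (101 / 100 : ℝ) = 1 + 1 / 100 := by norm_num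
    rw [e, Real.rpow_add hN0, Real.rpow_one]
  have hNP : 100 ≤ N * P := by nlinarith
  have hYu : (Y : ℝ) ≤ N * P := by
    rw [hY, YN, hYP]
    exact Nat.floor_le (by positivity)
  have hYl : N * P / 2 ≤ (Y : ℝ) := by
    have : N * P < (Y : ℝ) + 1 := by
      rw [hY, YN, hYP]
      exact Nat.lt_floor_add_one _
    linarith
  have hY0 : (0 : ℝ) < Y := by linarith
  have hY1 : 1 ≤ Y := by
    rw [Nat.one_le_iff_ne_zero]
    rintro rfl
    simp at hY0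
  have hY1r : (1 : ℝ) ≤ Y := by exact_mod_cast hY1
  -- exp v
  have hexpL : Real.exp (3 * L) = (N : ℝ) ^ 3 := by
    rw [show (3 : ℝ) * L = ((3 : ℕ) : ℝ) * L by norm_num, Real.exp_nat_mul, hL, Real.exp_log hN0]
  have he3 : Real.exp 1 < 3 := lt_trans Real.exp_one_lt_d9 (by norm_num)
  have hN3 : (0 : ℝ) < (N : ℝ) ^ 3 := by positivity
  have hevu : Real.exp v ≤ 3 * (N : ℝ) ^ 3 := by
    have h3 := (abs_le.1 hv).2
    calc Real.exp v ≤ Real.exp (1 + 3 * L) := Real.exp_le_exp.2 (by linarith)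
      _ = Real.exp 1 * (N : ℝ) ^ 3 := by rw [Real.exp_add, hexpL]
      _ ≤ 3 * (N : ℝ) ^ 3 := mul_le_mul_of_nonneg_right he3.le hN3.le
  have hevl : (N : ℝ) ^ 3 ≤ 3 * Real.exp v := by
    have h3 := (abs_le.1 hv).1
    calc (N : ℝ) ^ 3 = Real.exp (3 * L) := hexpL.symm
      _ ≤ Real.exp (1 + v) := Real.exp_le_exp.2 (by linarith)
      _ = Real.exp 1 * Real.exp v := by rw [Real.exp_add]
      _ ≤ 3 * Real.exp v := mul_le_mul_of_nonneg_right he3.le (Real.exp_pos v).le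
  have hiLB : 1 / L ^ B ≤ 1 / 2 := one_div_le_one_div_of_le (by norm_num) hLB2
  have hiLB0 : 0 < 1 / L ^ B := by positivity
  -- the two sets
  obtain ⟨D₁, hD₁⟩ : ∃ D : Finset ℕ, D = (Ioc 0 (64 * N ^ 3)).filter
    (fun d : ℕ => (d : ℝ) * Y ≤ Real.exp (v - 1 / L ^ B)) := ⟨_, rfl⟩
  obtain ⟨D₂, hD₂⟩ : ∃ D : Finset ℕ, D = (Ioc 0 (64 * N ^ 3)).filter
    (fun d : ℕ => Real.exp (v - 1 / L ^ B) < (d : ℝ) * Y ∧ (d : ℝ) * Y < Real.exp (v + 1 / L ^ B)) := ⟨_, rfl⟩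
  have hD₁s : D₁ ⊆ Ioc 0 (64 * N ^ 3) := by rw [hD₁]; exact filter_subset _ _
  have hD₂s : D₂ ⊆ Ioc 0 (64 * N ^ 3) := by rw [hD₂]; exact filter_subset _ _
  have hdisj : Disjoint D₁ D₂ := by
    rw [Finset.disjoint_left]
    intro d hd hd'
    rw [hD₁, mem_filter] at hd
    rw [hD₂, mem_filter] at hd'
    exact absurd hd.2 (not_le.2 hd'.2.1)
  -- reduction to the two sets
  have hred : ‖∑ m ∈ Ioc 0 (64 * N ^ 3), (((E * bgf Y h) m : ℝ) : ℂ) * χ m * gj B N v m‖ ≤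
      ∑ d ∈ D₁, |E d| * ‖TI_S B N v χ h Y d‖ + ∑ d ∈ D₂, |E d| * ‖TI_S B N v χ h Y d‖ := by
    rw [TI_eq, ← Finset.sum_union hdisj]
    refine (norm_sum_le _ _).trans ?_
    have hsub : D₁ ∪ D₂ ⊆ Ioc 0 (64 * N ^ 3) := union_subset hD₁s hD₂s
    have hterm : ∀ d, ‖((E d : ℝ) : ℂ) * χ d * TI_S B N v χ h Y d‖ ≤ |E d| * ‖TI_S B N v χ h Y d‖ := by
      intro d
      rw [norm_mul, norm_mul, Complex.norm_real, Real.norm_eq_abs]
      have h3 : ‖χ (d : ZMod q)‖ ≤ 1 := DirichletCharacter.norm_le_one χ _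
      calc |E d| * ‖χ (d : ZMod q)‖ * ‖TI_S B N v χ h Y d‖ ≤ |E d| * 1 * ‖TI_S B N v χ h Y d‖ := by
            gcongr
        _ = _ := by ring
    refine (Finset.sum_le_sum (fun d _ => hterm d)).trans (le_of_eq ?_)
    symm
    apply Finset.sum_subset hsub
    intro d hd hd'
    rw [mem_union, not_or] at hd'
    obtain ⟨hd1, hd2⟩ := hd'
    rw [hD₁, mem_filter, not_and] at hd1
    rw [hD₂, mem_filter, not_and] at hd2
    have h4 := not_le.1 (hd1 hd)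
    have h5 : Real.exp (v + 1 / L ^ B) ≤ (d : ℝ) * Y := by
      by_contra hlt
      exact hd2 hd ⟨h4, not_le.1 hlt⟩
    have h6 : TI_S B N v χ h Y d = 0 := by
      unfold TI_S
      refine Finset.sum_eq_zero (fun n hn => ?_)
      rw [mem_Ioc] at hn hd
      have h7 : gj B N v (d * n) = 0 := by
        unfold gj
        rw [TI_g0 B N v _ hLB0 hLBN, Complex.ofReal_zero]
        have hd0 : (0 : ℝ) < d := by exact_mod_cast hd.1
        have hYn : (Y : ℝ) ≤ n := by exact_mod_cast hn.1.le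
        have h8 : Real.exp (v + 1 / L ^ B) ≤ ((d * n : ℕ) : ℝ) := by
          push_cast
          exact h5.trans (mul_le_mul_of_nonneg_left hYn hd0.le)
        calc v + 1 / L ^ B = Real.log (Real.exp (v + 1 / L ^ B)) := (Real.log_exp _).symm
          _ ≤ Real.log ((d * n : ℕ) : ℝ) := Real.log_le_log (Real.exp_pos _) h8
      rw [h7, mul_zero]
    rw [h6]
    simp
  refine hred.trans ?_
  have hN₁' := hN₁ N hNN₁ v hv q hq χ h
  -- first set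
  have hpart1 : ∑ d ∈ D₁, |E d| * ‖TI_S B N v χ h Y d‖ ≤
      C * L * (q * (L ^ K * ((6 * (N : ℝ) ^ 2 / P) * (6 * L) ^ a₁)) +
        (N : ℝ) ^ 2 / L ^ B * (L ^ K * (6 * L) ^ a₁)) := by
    have hS : ∀ d ∈ D₁, |E d| * ‖TI_S B N v χ h Y d‖ ≤
        C * L * (q * |E d| + (N : ℝ) ^ 2 / L ^ B * (|E d| / d)) := by
      intro d hd
      rw [hD₁, mem_filter, mem_Ioc] at hd
      obtain ⟨⟨hd0, hdM⟩, hdY⟩ := hd
      have hd0' : (0 : ℝ) < d := by exact_mod_cast hd0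
      have hd32 : d ≤ 32 * N ^ 3 := by
        have h3 : (d : ℝ) ≤ 3 * (N : ℝ) ^ 3 := by
          calc (d : ℝ) ≤ d * Y := le_mul_of_one_le_right hd0'.le hY1r
            _ ≤ Real.exp (v - 1 / L ^ B) := hdY
            _ ≤ Real.exp v := Real.exp_le_exp.2 (by linarith)
            _ ≤ _ := hevu
        have h4 : d ≤ 3 * N ^ 3 := by exact_mod_cast h3
        calc d ≤ 3 * N ^ 3 := h4
          _ ≤ 32 * N ^ 3 := Nat.mul_le_mul_right _ (by norm_num)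
      have h5 := (hN₁' d Y hh hd0 hY1).2.2 hdY hd32
      calc |E d| * ‖TI_S B N v χ h Y d‖ ≤ |E d| * (C * L * (q + (N : ℝ) ^ 2 / (d * L ^ B))) :=
            mul_le_mul_of_nonneg_left h5 (abs_nonneg _)
        _ = C * L * (q * |E d| + (N : ℝ) ^ 2 / L ^ B * (|E d| / d)) := by
            field_simp
    have hX : (⌊6 * (N : ℝ) ^ 2 / P⌋₊ : ℝ) ≤ 6 * (N : ℝ) ^ 2 / P := Nat.floor_le (by positivity)
    have hXM : ⌊6 * (N : ℝ) ^ 2 / P⌋₊ ≤ 64 * N ^ 3 := by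
      have h3 : 6 * (N : ℝ) ^ 2 / P ≤ ((64 * N ^ 3 : ℕ) : ℝ) := by
        rw [div_le_iff₀ hP0]
        push_cast
        have h4 : (N : ℝ) ^ 2 ≤ (N : ℝ) ^ 3 := pow_le_pow_right₀ hNr (by norm_num)
        nlinarith
      calc ⌊6 * (N : ℝ) ^ 2 / P⌋₊ ≤ ⌊((64 * N ^ 3 : ℕ) : ℝ)⌋₊ := Nat.floor_le_floor h3
        _ = 64 * N ^ 3 := Nat.floor_natCast _
    have hsubX : D₁ ⊆ Ioc 0 ⌊6 * (N : ℝ) ^ 2 / P⌋₊ := by
      intro d hd
      rw [hD₁, mem_filter, mem_Ioc] at hd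
      obtain ⟨⟨hd0, hdM⟩, hdY⟩ := hd
      rw [mem_Ioc]
      refine ⟨hd0, Nat.le_floor ?_⟩
      have hd0' : (0 : ℝ) < d := by exact_mod_cast hd0
      rw [le_div_iff₀ hP0]
      have h3 : (d : ℝ) * (N * P / 2) ≤ 3 * (N : ℝ) ^ 3 := by
        calc (d : ℝ) * (N * P / 2) ≤ d * Y := mul_le_mul_of_nonneg_left hYl hd0'.le
          _ ≤ Real.exp (v - 1 / L ^ B) := hdY
          _ ≤ Real.exp v := Real.exp_le_exp.2 (by linarith)
          _ ≤ _ := hevu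
      have h4 : (N : ℝ) * ((d : ℝ) * P) ≤ N * (6 * (N : ℝ) ^ 2) := by
        calc (N : ℝ) * ((d : ℝ) * P) = 2 * ((d : ℝ) * (N * P / 2)) := by ring
          _ ≤ 2 * (3 * (N : ℝ) ^ 3) := by linarith
          _ = _ := by ring
      exact le_of_mul_le_mul_left h4 hN0
    have hA1 : ∑ d ∈ D₁, |E d| ≤ L ^ K * ((6 * (N : ℝ) ^ 2 / P) * (6 * L) ^ a₁) := by
      calc ∑ d ∈ D₁, |E d| ≤ ∑ d ∈ Ioc 0 ⌊6 * (N : ℝ) ^ 2 / P⌋₊, |E d| :=
            Finset.sum_le_sum_of_subset_of_nonneg hsubX (fun d _ _ => abs_nonneg _)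
        _ ≤ L ^ K * (⌊6 * (N : ℝ) ^ 2 / P⌋₊ * (6 * L) ^ (2 ^ K)) := TI_m1 h2 hN1 hL2 hE _ hXM
        _ ≤ _ := by
            rw [← ha₁]
            gcongr
    have hA2 : ∑ d ∈ D₁, |E d| / d ≤ L ^ K * (6 * L) ^ a₁ := by
      rw [ha₁]
      exact (TI_m2 h2 hN1 hL2 hE D₁ hD₁s).1
    calc ∑ d ∈ D₁, |E d| * ‖TI_S B N v χ h Y d‖
        ≤ ∑ d ∈ D₁, C * L * (q * |E d| + (N : ℝ) ^ 2 / L ^ B * (|E d| / d)) := Finset.sum_le_sum hS
      _ = C * L * (q * ∑ d ∈ D₁, |E d| + (N : ℝ) ^ 2 / L ^ B * ∑ d ∈ D₁, |E d| / d) := by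
          rw [← Finset.mul_sum, Finset.sum_add_distrib, Finset.mul_sum, Finset.mul_sum]
      _ ≤ _ := by gcongr
  -- second set
  have hpart2 : ∑ d ∈ D₂, |E d| * ‖TI_S B N v χ h Y d‖ ≤
      C * L * (N : ℝ) ^ 2 * (L ^ (2 * K) * (6 * L) ^ a₂ / L ^ s + L ^ s * (5 / L ^ B)) := by
    have hdb : ∀ d ∈ D₂, 0 < (d : ℝ) ∧ |E d| * ‖TI_S B N v χ h Y d‖ ≤
        C * L * (N : ℝ) ^ 2 * (2 * (|E d| / d)) := by
      intro d hd
      rw [hD₂, mem_filter, mem_Ioc] at hd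
      obtain ⟨⟨hd0, hdM⟩, hdY, hdY'⟩ := hd
      have hd0' : (0 : ℝ) < d := by exact_mod_cast hd0
      refine ⟨hd0', ?_⟩
      have h3 : (d : ℝ) * (N * P / 2) ≤ 9 * (N : ℝ) ^ 3 := by
        calc (d : ℝ) * (N * P / 2) ≤ d * Y := mul_le_mul_of_nonneg_left hYl hd0'.le
          _ ≤ Real.exp (v + 1 / L ^ B) := hdY'.le
          _ ≤ Real.exp (1 + v) := Real.exp_le_exp.2 (by linarith)
          _ = Real.exp 1 * Real.exp v := by rw [Real.exp_add]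
          _ ≤ 3 * (3 * (N : ℝ) ^ 3) := mul_le_mul he3.le hevu (Real.exp_pos v).le (by norm_num)
          _ = _ := by ring
      have h4 : (N : ℝ) * ((d : ℝ) * P) ≤ N * (18 * (N : ℝ) ^ 2) := by
        calc (N : ℝ) * ((d : ℝ) * P) = 2 * ((d : ℝ) * (N * P / 2)) := by ring
          _ ≤ 2 * (9 * (N : ℝ) ^ 3) := by linarith
          _ = _ := by ring
      have h5 : (d : ℝ) * P ≤ 18 * (N : ℝ) ^ 2 := le_of_mul_le_mul_left h4 hN0
      have h6 : (d : ℝ) ≤ (N : ℝ) ^ 2 := by nlinarith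
      have h7 : (N : ℝ) ^ 2 / d + 1 ≤ 2 * ((N : ℝ) ^ 2 / d) := by
        have : 1 ≤ (N : ℝ) ^ 2 / d := by
          rw [le_div_iff₀ hd0']
          linarith
        linarith
      have h8 := (hN₁' d Y hh hd0 hY1).2.1
      calc |E d| * ‖TI_S B N v χ h Y d‖ ≤ |E d| * (C * L * ((N : ℝ) ^ 2 / d + 1)) :=
            mul_le_mul_of_nonneg_left h8 (abs_nonneg _)
        _ ≤ |E d| * (C * L * (2 * ((N : ℝ) ^ 2 / d))) := by gcongr
        _ = _ := by field_simp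
    have hAM : ∀ d ∈ D₂, 2 * (|E d| / d) ≤ (E d) ^ 2 / d * (1 / L ^ s) + L ^ s * (1 / (d : ℝ)) := by
      intro d hd
      have hd0 := (hdb d hd).1
      have hLs : 0 < L ^ s := by positivity
      have h3 : 2 * |E d| ≤ (E d) ^ 2 * (1 / L ^ s) + L ^ s := by
        have h4 : 0 ≤ (|E d| - L ^ s) ^ 2 / L ^ s := by positivity
        have h5 : (|E d| - L ^ s) ^ 2 / L ^ s = (E d) ^ 2 * (1 / L ^ s) + L ^ s - 2 * |E d| := by
          have h6 : |E d| ^ 2 = (E d) ^ 2 := sq_abs _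
          rw [← h6]
          field_simp
          ring
        linarith
      calc 2 * (|E d| / d) = (2 * |E d|) / d := by ring
        _ ≤ ((E d) ^ 2 * (1 / L ^ s) + L ^ s) / d := div_le_div_of_nonneg_right h3 hd0.le
        _ = _ := by ring
    have hshort : ∑ d ∈ D₂, 1 / (d : ℝ) ≤ 5 / L ^ B := by
      have ha0 : 0 < Real.exp (v - 1 / L ^ B) / Y := div_pos (Real.exp_pos _) hY0
      have hab : Real.exp (v - 1 / L ^ B) / Y ≤ Real.exp (v + 1 / L ^ B) / Y :=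
        div_le_div_of_nonneg_right (Real.exp_le_exp.2 (by linarith)) hY0.le
      have h3 := TI_short D₂ (Real.exp (v - 1 / L ^ B) / Y) (Real.exp (v + 1 / L ^ B) / Y) ha0 hab (by
        intro d hd
        rw [hD₂, mem_filter] at hd
        rw [div_lt_iff₀ hY0, lt_div_iff₀ hY0]
        exact hd.2)
      have h4 : Real.exp (v + 1 / L ^ B) / Y / (Real.exp (v - 1 / L ^ B) / Y) = Real.exp (2 * (1 / L ^ B)) := by
        rw [div_div_div_cancel_right₀ hY0.ne', ← Real.exp_sub]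
        congr 1
        ring
      have h5 : Real.exp (2 * (1 / L ^ B)) ≤ 1 + 4 * (1 / L ^ B) := by
        have hx0 : 0 ≤ 2 * (1 / L ^ B) := by linarith
        have hx1 : 2 * (1 / L ^ B) ≤ 1 := by linarith
        have h6 := Real.abs_exp_sub_one_sub_id_le (x := 2 * (1 / L ^ B)) (by rw [abs_of_nonneg hx0]; exact hx1)
        have h7 := (abs_le.1 h6).2
        nlinarith
      have h6 : 1 / (Real.exp (v - 1 / L ^ B) / Y) ≤ 1 / L ^ B := by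
        rw [one_div_div, div_le_div_iff₀ (Real.exp_pos _) hLB0, one_mul]
        have h7 : Real.exp v ≤ 3 * Real.exp (v - 1 / L ^ B) := by
          calc Real.exp v ≤ Real.exp (1 + (v - 1 / L ^ B)) := Real.exp_le_exp.2 (by linarith)
            _ = Real.exp 1 * Real.exp (v - 1 / L ^ B) := by rw [Real.exp_add]
            _ ≤ _ := mul_le_mul_of_nonneg_right he3.le (Real.exp_pos _).le
        have h8 : (N : ℝ) ^ 3 ≤ 9 * Real.exp (v - 1 / L ^ B) := by linarith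
        have h9 : 9 * ((Y : ℝ) * L ^ B) ≤ (N : ℝ) ^ 3 := by
          have h10 : (Y : ℝ) * L ^ B ≤ (N * P) * (P / 100) := by
            apply mul_le_mul hYu (by linarith) hLB0.le (by positivity)
          have h11 : 9 * ((N * P) * (P / 100)) ≤ (N : ℝ) * N := by
            nlinarith
          have h12 : (N : ℝ) * N ≤ (N : ℝ) ^ 3 := by
            calc (N : ℝ) * N = (N : ℝ) ^ 2 := by ring
              _ ≤ (N : ℝ) ^ 3 := pow_le_pow_right₀ hNr (by norm_num)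
          linarith
        linarith
      have h10 : (5 : ℝ) / L ^ B = 5 * (1 / L ^ B) := by ring
      rw [h10]
      rw [h4] at h3
      linarith
    have hE2 : ∑ d ∈ D₂, (E d) ^ 2 / d ≤ L ^ (2 * K) * (6 * L) ^ a₂ := by
      rw [ha₂]
      exact (TI_m2 h2 hN1 hL2 hE D₂ hD₂s).2
    calc ∑ d ∈ D₂, |E d| * ‖TI_S B N v χ h Y d‖
        ≤ ∑ d ∈ D₂, C * L * (N : ℝ) ^ 2 * (2 * (|E d| / d)) := Finset.sum_le_sum (fun d hd => (hdb d hd).2)
      _ = C * L * (N : ℝ) ^ 2 * ∑ d ∈ D₂, 2 * (|E d| / d) := by rw [Finset.mul_sum]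
      _ ≤ C * L * (N : ℝ) ^ 2 * ∑ d ∈ D₂, ((E d) ^ 2 / d * (1 / L ^ s) + L ^ s * (1 / (d : ℝ))) := by
          apply mul_le_mul_of_nonneg_left (Finset.sum_le_sum hAM) (by positivity)
      _ = C * L * (N : ℝ) ^ 2 * ((∑ d ∈ D₂, (E d) ^ 2 / d) * (1 / L ^ s) + L ^ s * ∑ d ∈ D₂, 1 / (d : ℝ)) := by
          rw [Finset.sum_add_distrib, Finset.sum_mul, Finset.mul_sum]
      _ ≤ C * L * (N : ℝ) ^ 2 * ((L ^ (2 * K) * (6 * L) ^ a₂) * (1 / L ^ s) + L ^ s * (5 / L ^ B)) := by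
          gcongr
      _ = _ := by ring
  refine (add_le_add hpart1 hpart2).trans ?_
  -- assembly
  have hN2 : (0 : ℝ) < (N : ℝ) ^ 2 := by positivity
  have hLA : 0 < L ^ A := by positivity
  have t1 : C * L * (q * (L ^ K * ((6 * (N : ℝ) ^ 2 / P) * (6 * L) ^ a₁))) ≤ (N : ℝ) ^ 2 / L ^ A / 4 := by
    have e1 : C * L * (q * (L ^ K * ((6 * (N : ℝ) ^ 2 / P) * (6 * L) ^ a₁))) ≤
        C * L * (L ^ Bq * (L ^ K * ((6 * (N : ℝ) ^ 2 / P) * (6 * L) ^ a₁))) := by gcongr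
    refine e1.trans ?_
    rw [div_div, le_div_iff₀ (by positivity)]
    have e2 : C * L * (L ^ Bq * (L ^ K * ((6 * (N : ℝ) ^ 2 / P) * (6 * L) ^ a₁))) * (L ^ A * 4) =
        (4 * C * 6 ^ (1 + a₁) * L ^ (1 + Bq + K + a₁ + A)) * ((N : ℝ) ^ 2 / P) := by
      rw [mul_pow, pow_add 6 1 a₁, pow_one, pow_add L, pow_add L, pow_add L, pow_add L, pow_one]
      ring
    rw [e2]
    calc (4 * C * 6 ^ (1 + a₁) * L ^ (1 + Bq + K + a₁ + A)) * ((N : ℝ) ^ 2 / P)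
        ≤ P * ((N : ℝ) ^ 2 / P) := mul_le_mul_of_nonneg_right hPq (by positivity)
      _ = (N : ℝ) ^ 2 := by field_simp
  have t2 : C * L * ((N : ℝ) ^ 2 / L ^ B * (L ^ K * (6 * L) ^ a₁)) ≤ (N : ℝ) ^ 2 / L ^ A / 4 := by
    rw [div_div, le_div_iff₀ (by positivity)]
    have e2 : C * L * ((N : ℝ) ^ 2 / L ^ B * (L ^ K * (6 * L) ^ a₁)) * (L ^ A * 4) =
        (4 * C * 6 ^ a₁) * L ^ (1 + K + a₁ + A) / L ^ B * (N : ℝ) ^ 2 := by
      rw [mul_pow, pow_add L, pow_add L, pow_add L, pow_one]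
      ring
    rw [e2]
    have e3 : (4 * C * 6 ^ a₁) * L ^ (1 + K + a₁ + A) / L ^ B ≤ 1 := by
      rw [div_le_one hLB0]
      calc (4 * C * 6 ^ a₁) * L ^ (1 + K + a₁ + A) ≤ L * L ^ (1 + K + a₁ + A) :=
            mul_le_mul_of_nonneg_right hc1 (by positivity)
        _ = L ^ (1 + K + a₁ + A + 1) := by rw [pow_succ]; ring
        _ ≤ L ^ B := pow_le_pow_right₀ hL1 (by omega)
    calc (4 * C * 6 ^ a₁) * L ^ (1 + K + a₁ + A) / L ^ B * (N : ℝ) ^ 2 ≤ 1 * (N : ℝ) ^ 2 :=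
          mul_le_mul_of_nonneg_right e3 hN2.le
      _ = _ := one_mul _
  have t3 : C * L * (N : ℝ) ^ 2 * (L ^ (2 * K) * (6 * L) ^ a₂ / L ^ s) ≤ (N : ℝ) ^ 2 / L ^ A / 4 := by
    rw [div_div, le_div_iff₀ (by positivity)]
    have e2 : C * L * (N : ℝ) ^ 2 * (L ^ (2 * K) * (6 * L) ^ a₂ / L ^ s) * (L ^ A * 4) =
        (4 * C * 6 ^ a₂) * L ^ (1 + 2 * K + a₂ + A) / L ^ s * (N : ℝ) ^ 2 := by
      rw [mul_pow, pow_add L, pow_add L, pow_add L, pow_one]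
      ring
    rw [e2]
    have hLs : 0 < L ^ s := by positivity
    have e3 : (4 * C * 6 ^ a₂) * L ^ (1 + 2 * K + a₂ + A) / L ^ s ≤ 1 := by
      rw [div_le_one hLs]
      calc (4 * C * 6 ^ a₂) * L ^ (1 + 2 * K + a₂ + A) ≤ L * L ^ (1 + 2 * K + a₂ + A) :=
            mul_le_mul_of_nonneg_right hc2 (by positivity)
        _ = L ^ (1 + 2 * K + a₂ + A + 1) := by rw [pow_succ]; ring
        _ ≤ L ^ s := pow_le_pow_right₀ hL1 (by omega)
    calc (4 * C * 6 ^ a₂) * L ^ (1 + 2 * K + a₂ + A) / L ^ s * (N : ℝ) ^ 2 ≤ 1 * (N : ℝ) ^ 2 :=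
          mul_le_mul_of_nonneg_right e3 hN2.le
      _ = _ := one_mul _
  have t4 : C * L * (N : ℝ) ^ 2 * (L ^ s * (5 / L ^ B)) ≤ (N : ℝ) ^ 2 / L ^ A / 4 := by
    rw [div_div, le_div_iff₀ (by positivity)]
    have e2 : C * L * (N : ℝ) ^ 2 * (L ^ s * (5 / L ^ B)) * (L ^ A * 4) =
        (20 * C) * L ^ (1 + s + A) / L ^ B * (N : ℝ) ^ 2 := by
      rw [pow_add L, pow_add L, pow_one]
      ring
    rw [e2]
    have e3 : (20 * C) * L ^ (1 + s + A) / L ^ B ≤ 1 := by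
      rw [div_le_one hLB0]
      calc (20 * C) * L ^ (1 + s + A) ≤ L * L ^ (1 + s + A) :=
            mul_le_mul_of_nonneg_right hc3 (by positivity)
        _ = L ^ (1 + s + A + 1) := by rw [pow_succ]; ring
        _ ≤ L ^ B := pow_le_pow_right₀ hL1 (by omega)
    calc (20 * C) * L ^ (1 + s + A) / L ^ B * (N : ℝ) ^ 2 ≤ 1 * (N : ℝ) ^ 2 :=
          mul_le_mul_of_nonneg_right e3 hN2.le
      _ = _ := one_mul _
  rw [mul_add, mul_add]
  linarith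

end Pool.Agent.SK
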